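import Pool.Agent.MP_3ce0a0_al.Q2.Top
import Pool.Agent.MP_3ce0a0_al.Q2T9.Main
import Pool.Agent.MP_3ce0a0_al.Q2T10.Asm
import Pool.Agent.MP_3ce0a0_al.Q2T12.Glue
import Pool.Agent.MP_3ce0a0_al.Q2T12.Main4d
import Pool.Agent.MP_3ce0a0_al.Q2T14.Main

/-! The chain of the blocks, with the finished blocks inserted. -/

namespace Pool.Agent.MP_3ce0a0_al.Q2

theorem chain (hD : Q2T7.PropD) (hK : Q2T11.StmtKol) (hH : Q2T12.HFam) (hL : Q2T12.LemK)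
    (hC : Q2T12.SChr) (hq : Q2T12.SSq) (h13 : Q2T13.StmtT13) : Main :=
  top (Q2T12.s4c_of (Q2T9.sdl hD) Q2T10.t10 hK hH hC) (Q2T12.s4d hL hq) h13 Q2T14.t14

end Pool.Agent.MP_3ce0a0_al.Q2
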