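import Pool.Agent.MP_3ce0a0_al.Q2.Pre
import Pool.Agent.MP_3ce0a0_al.Q2T12.KAB

/-! The divisibility theorem. -/

namespace Pool.Agent.MP_3ce0a0_al.Q2

theorem main : Main := main_of Q2T12.lemK26

end Pool.Agent.MP_3ce0a0_al.Q2
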