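import Pool.Agent.MP_3ce0a0_al.Q2.Chain
import Pool.Agent.MP_3ce0a0_al.Q2T2.All
import Pool.Agent.MP_3ce0a0_al.Q2T5.All
import Pool.Agent.MP_3ce0a0_al.Q2T6I.Idx
import Pool.Agent.MP_3ce0a0_al.Q2T6L.Iso
import Pool.Agent.MP_3ce0a0_al.Q2T7.Asm
import Pool.Agent.MP_3ce0a0_al.Q2T7.RARC
import Pool.Agent.MP_3ce0a0_al.Q2T7.RARCS
import Pool.Agent.MP_3ce0a0_al.Q2T7.RCLA
import Pool.Agent.MP_3ce0a0_al.Q2T7.RCLB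
import Pool.Agent.MP_3ce0a0_al.Q2T7.RCX
import Pool.Agent.MP_3ce0a0_al.Q2T7.REND
import Pool.Agent.MP_3ce0a0_al.Q2T7.RFIXF
import Pool.Agent.MP_3ce0a0_al.Q2T7.RINV
import Pool.Agent.MP_3ce0a0_al.Q2T7.RLibA
import Pool.Agent.MP_3ce0a0_al.Q2T7.RLibT
import Pool.Agent.MP_3ce0a0_al.Q2T7.RNAB
import Pool.Agent.MP_3ce0a0_al.Q2T7.RNTW
import Pool.Agent.MP_3ce0a0_al.Q2T7.RPRE
import Pool.Agent.MP_3ce0a0_al.Q2T7.RQ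
import Pool.Agent.MP_3ce0a0_al.Q2T7.RSEG
import Pool.Agent.MP_3ce0a0_al.Q2T7.RSET
import Pool.Agent.MP_3ce0a0_al.Q2T7.RSIDE
import Pool.Agent.MP_3ce0a0_al.Q2T7.RTR1
import Pool.Agent.MP_3ce0a0_al.Q2T7.RTR2
import Pool.Agent.MP_3ce0a0_al.Q2T7.RUP
import Pool.Agent.MP_3ce0a0_al.Q2T7.RWALK
import Pool.Agent.MP_3ce0a0_al.Q2T11.Asm
import Pool.Agent.MP_3ce0a0_al.Q2T12.Chr
import Pool.Agent.MP_3ce0a0_al.Q2T12.HPT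
import Pool.Agent.MP_3ce0a0_al.Q2T13.Asm

/-! All blocks but the kernel lemma. -/

namespace Pool.Agent.MP_3ce0a0_al.Q2

open Q2T7 in
theorem simpL : SimpL :=
  simpL_rows libA ofLibT ofNTF ofARC ofCLA ofCLB ofNTW ofARCS ofFIXF ofSEG ofSLW Q2T2.sNbr

open Q2T7 in
theorem propD : PropD :=
  propD_rows libA ofLibT ofPT ofSET ofUP ofLOW ofPRE ofQ ofTR1 ofTR2 ofNAB ofCX ofINV ofSIDE
    ofWALK ofNOT ofFIN ofEND Q2T5.limD Q2T6I.indexL Q2T6L.isoL simpL Q2T2.sFI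

theorem kol : Q2T11.StmtKol := Q2T11.kol_of Q2T6I.indexL simpL

theorem main_of (hL : Q2T12.LemK) : Main :=
  chain propD kol Q2T12.hFam hL Q2T12.sChr Q2T12.sSq Q2T13.t13

end Pool.Agent.MP_3ce0a0_al.Q2
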