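import Pool.Agent.MP_3ce0a0_al.Q2T12.Spec
import Pool.Agent.MP_3ce0a0_al.Q2T13.Spec

/-! The chain of the blocks. -/

namespace Pool.Agent.MP_3ce0a0_al.Q2

open H79

/-- The main statement. -/
def Main : Prop := ∀ n m : ℕ, 15 ≤ n →
  ∀ ρ : Out (FreeGroup (Fin n)) →* Out (FreeGroup (Fin m)), Function.Injective ρ → n - 1 ∣ m - 1

theorem nonab {m : ℕ} (hm : 2 ≤ m) : ∃ g g' : FreeGroup (Fin m), ¬Commute g g' := by
  let a : Fin m := ⟨0, by omega⟩
  let b : Fin m := ⟨1, by omega⟩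
  have hab : b ≠ a := by simp [a, b]
  refine ⟨FreeGroup.of a, FreeGroup.of b, fun h => ?_⟩
  have := (h.map (FreeGroup.lift fun i =>
    if i = a then Equiv.swap (0 : Fin 3) 1 else Equiv.swap 1 2)).eq
  simp only [FreeGroup.lift_apply_of, if_pos, if_neg hab] at this
  exact absurd this (by decide)

theorem top (h1 : Q2T12.S4c) (h2 : Q2T12.S4d) (h3 : Q2T13.StmtT13) (h4 : Q2T14.StmtT14) :
    Main := by
  intro n m hn ρ hρ
  rcases Nat.lt_or_ge m 2 with hm | hm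
  · rw [Nat.sub_eq_zero_of_le (Nat.lt_succ_iff.1 hm)]
    exact dvd_zero _
  have hc : 15 ≤ Fintype.card (Fin n) := by simpa using hn
  obtain ⟨P, hP⟩ := h3 (Fin n) _ ρ hρ (by omega) fun L hL => by
    obtain ⟨S, D, h⟩ := h1 (Fin n) (Fin m) ρ L hc hL (nonab hm)
    exact h2 (Fin n) _ ρ L S D hc hL (nonab hm) h
  exact h4 n m ρ P (by omega) hP

/-- The negated form of the question, for every rank at least fifteen. -/
theorem Main.neg (h : Main) {n : ℕ} (hn : 15 ≤ n) (M : ℕ) : ∃ m : ℕ, M ≤ m ∧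
    ¬∃ ρ : Out (FreeGroup (Fin n)) →* Out (FreeGroup (Fin m)), Function.Injective ρ := by
  refine ⟨(n - 1) * M + 2, by nlinarith [show 1 ≤ n - 1 by omega], fun ⟨ρ, hρ⟩ => ?_⟩
  have h1 := h n _ hn ρ hρ
  rw [show (n - 1) * M + 2 - 1 = (n - 1) * M + 1 from rfl,
    Nat.dvd_add_right (dvd_mul_right _ _), Nat.dvd_one] at h1
  omega

end Pool.Agent.MP_3ce0a0_al.Q2
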